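import Mathlib
import Pool.Agent.X186.PP.C

/-!
# Parry powers of Perron numbers: abelian trace fields, and degree over cyclotomic fields

(1) Let `β > 1` be an algebraic integer whose other conjugates have modulus at most `1` (a Salem or
Pisot number), and let `β + 1/β` lie in a cyclotomic field; equivalently (Kronecker-Weber) the trace
field `ℚ(β + 1/β)` is abelian over `ℚ`. Then `β > 5/4` and `β ^ 22 > (11/4) ^ n`, where `n` is the
degree of the trace field. There is no condition on the degree or on the ramification.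

Let `β` be a Perron number.

(2) If `β + 1/β` lies in a cyclotomic field and `β ≤ 5/4`, then only finitely many powers of `β` are
Parry numbers. Lehmer's number is `1.17628...`.

(3) The same if `β + 1/β` lies in a cyclotomic field and `β ^ 22 ≤ (11/4) ^ n`.

(4) If `β` has degree at most `D` over some cyclotomic field and
`32 D ^ 2 log β < deg β log 2`, then only finitely many powers of `β` are Parry numbers.

(5) If `β` is smaller than Lehmer's number and has degree at most `D` over some cyclotomic field,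
where `8 D ^ 2 ≤ deg β`, then only finitely many powers of `β` are Parry numbers.

Method for (1): let `m` be minimal such that `t = β + 1/β` lies in `ℚ(ζ)`, `ζ` of order `m`, and
let `p` be `7` or `11`. If `p` does not divide `m` there is a conjugate `s` of `t` with
`t ^ p ≡ s` modulo `p`; if `p` divides `m` there is a conjugate `s ≠ t` with `t ^ p ≡ s ^ p`. All
conjugates of `t` are in `ℚ(t)`. For a Salem number `β` the norm of `D_p(t) - s` or of
`D_p(t) - D_p(s)`, `D_p` the Dickson polynomial, is divisible by `p ^ n` and too small.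
-/

set_option autoImplicit false

open Polynomial

namespace Pool.Agent.Results.MP_1f45fc_nt.AbelianTraceFields

/-- `β > 1` is an algebraic integer whose other conjugates have modulus less than `β`. -/
def IsPerron (β : ℝ) : Prop :=
  1 < β ∧ IsIntegral ℤ β ∧
    ∀ z : ℂ, aeval z (minpoly ℤ β) = 0 → z ≠ (β : ℂ) → ‖z‖ < β

/-- The set of the `k ≥ 1` such that `β ^ k` is a Parry number, that is, the orbit of `1` under
`x ↦ fract (β ^ k * x)` is finite. -/
def parryPowers (β : ℝ) : Set ℕ :=
  {k : ℕ | 1 ≤ k ∧ Set.Finite (Set.range (fun j : ℕ =>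
    (fun x : ℝ => Int.fract (β ^ k * x))^[j] (1 : ℝ)))}

/-- `β + 1/β` lies in the cyclotomic field generated by some root of unity. -/
def TraceInCyclotomic (β : ℝ) : Prop :=
  ∃ (m : ℕ) (ζ : ℂ), 0 < m ∧ IsPrimitiveRoot ζ m ∧
    ((β + β⁻¹ : ℝ) : ℂ) ∈ IntermediateField.adjoin ℚ {ζ}

/-- `β` has degree at most `D` over the field generated by some root of unity. -/
def NearCyclotomic (D : ℕ) (β : ℝ) : Prop :=
  ∃ ζ : ℂ, (∃ m : ℕ, 0 < m ∧ ζ ^ m = 1) ∧
    (minpoly (IntermediateField.adjoin ℚ {ζ}) (β : ℂ)).natDegree ≤ D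

/-- **Parry powers of Perron numbers: abelian trace fields, and degree over cyclotomic fields.** -/
theorem result :
    (∀ β : ℝ, 1 < β → IsIntegral ℤ β →
      (∀ z : ℂ, aeval z (minpoly ℤ β) = 0 → z ≠ (β : ℂ) → ‖z‖ ≤ 1) → TraceInCyclotomic β →
      5 / 4 < β ∧
      (11 / 4 : ℝ) ^ (Module.finrank ℚ (IntermediateField.adjoin ℚ {β + β⁻¹})) < β ^ 22) ∧
    (∀ β : ℝ, IsPerron β →
      (TraceInCyclotomic β → β ≤ 5 / 4 → (parryPowers β).Finite) ∧
      (TraceInCyclotomic β →
        β ^ 22 ≤ (11 / 4 : ℝ) ^ (Module.finrank ℚ (IntermediateField.adjoin ℚ {β + β⁻¹})) →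
        (parryPowers β).Finite) ∧
      (∀ D : ℕ, NearCyclotomic D β →
        32 * (D : ℝ) ^ 2 * Real.log β < (minpoly ℤ β).natDegree * Real.log 2 →
        (parryPowers β).Finite) ∧
      (∀ τ : ℝ, 1 < τ → τ ^ 10 + τ ^ 9 - τ ^ 7 - τ ^ 6 - τ ^ 5 - τ ^ 4 - τ ^ 3 + τ + 1 = 0 →
        β < τ → ∀ D : ℕ, NearCyclotomic D β → 8 * D ^ 2 ≤ (minpoly ℤ β).natDegree →
        (parryPowers β).Finite)) :=
  ⟨fun _ h1 h2 h3 hc => Pool.Agent.X186.PP.main_lower h1 h2 h3 hc,
    fun _ hP => ⟨fun hc h => Pool.Agent.X186.PP.main_cyc hP hc (Or.inl h),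
      fun hc h => Pool.Agent.X186.PP.main_cyc hP hc (Or.inr h),
      fun D hD h => Pool.Agent.X186.PP.parry_near hP D hD h,
      fun _ h1 h2 h3 D hD h => Pool.Agent.X186.PP.parry_near_lehmer hP h1 h2 h3 D hD h⟩⟩

end Pool.Agent.Results.MP_1f45fc_nt.AbelianTraceFields
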