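import Mathlib
import Pool.Agent.X186.PP.D

/-!
# Parry powers of Perron numbers of bounded degree over fields with small conjugacy classes

Let `K` be a number field, for instance `ℚ`, `P` a prime ideal of its ring of integers, and let `m`,
`B`, `D`, `e` be natural numbers. Consider the Perron numbers `β`, of arbitrary degree, which have
degree at most `D` over some number field `k`, of arbitrary degree, contained in a finite Galois
extension `k'` of `K`, of arbitrary degree, such that

* for all `σ` in the Galois group of `k'` over `K`, `σ ^ m` has at most `B` conjugates;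
* the ramification indices of `k'` over `K` at the primes above `P` are at most `e`.

The first condition is satisfied for `B = 1` if the quotient of the Galois group by its centre has
exponent `m`, for `m = 1` if all conjugacy classes have at most `B` elements, and for `m = t!`,
`B = t` if there is an abelian subgroup of index at most `t`. The number `β` need not be contained in
a field of this kind, and there is no condition on the Galois group or on the ramification of
`k(β)` over `k`. For instance `k` may contain `β + 1/β` (then `D = 2`).

For every `T`, all but finitely many of these Perron numbers `β ≤ T` have only finitely many powers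
which are Parry numbers. More precisely, if `deg β > C e log β`, with a constant `C` which depends on
`K`, `P`, `m`, `B`, `D` only, then only finitely many powers of `β` are Parry numbers.

Method: if infinitely many powers of `β` are Parry numbers then `log β` is the logarithmic Mahler
measure of `β`. The coefficients of the minimal polynomial of `β` over `k` are a point of projective
space of dimension at most `D`. Taking `p`-th powers of the zeros is an endomorphism of projective
space, which is a `p`-th power modulo `p`; the lower bound `Pool.Agent.H627.LP.final` for canonical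
heights of points over `k'` does not depend on the degree of `k'`. The canonical height of the point
is at most `2 [k(β) : k] log M(β) / deg β`.
-/

set_option autoImplicit false

open Polynomial NumberField

namespace Pool.Agent.Results.MP_1f45fc_nt.BoundedDegreeSmallClasses

/-- `β > 1` is an algebraic integer whose other conjugates have modulus less than `β`. -/
def IsPerron (β : ℝ) : Prop :=
  1 < β ∧ IsIntegral ℤ β ∧
    ∀ z : ℂ, aeval z (minpoly ℤ β) = 0 → z ≠ (β : ℂ) → ‖z‖ < β

/-- The set of the `k ≥ 1` such that `β ^ k` is a Parry number, that is, the orbit of `1` under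
`x ↦ fract (β ^ k * x)` is finite. -/
def parryPowers (β : ℝ) : Set ℕ :=
  {k : ℕ | 1 ≤ k ∧ Set.Finite (Set.range (fun j : ℕ =>
    (fun x : ℝ => Int.fract (β ^ k * x))^[j] (1 : ℝ)))}

/-- The complex number `x` has degree at most `D` over a subfield of `ℂ` isomorphic to a number field
`k`, where `k` is a subfield of a finite Galois extension `k'` of `K` such that, for all `σ` in the
Galois group, `σ ^ m` has at most `B` conjugates, and the ramification indices of `k'` over `K` at
the primes above `P` are at most `e`. -/
def SmallClassDegree (K : Type) [Field K] [NumberField K] (P : Ideal (𝓞 K)) (m B e D : ℕ)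
    (x : ℂ) : Prop :=
  ∃ (k k' : Type) (_ : Field k) (_ : NumberField k) (_ : Field k') (_ : NumberField k')
    (_ : Algebra k k') (_ : Algebra K k') (φ : k →+* ℂ),
    IsGalois K k' ∧
    (∀ σ : Gal(k'/K), (Set.range fun g : Gal(k'/K) => g * σ ^ m * g⁻¹).ncard ≤ B) ∧
    (∀ 𝔓 : Ideal (𝓞 k'), 𝔓.IsPrime → 𝔓.under (𝓞 K) = P → 𝔓.ramificationIdx (𝓞 K) ≤ e) ∧
    (minpoly φ.fieldRange x).natDegree ≤ D

/-- **Parry powers of Perron numbers of bounded degree over fields with small conjugacy classes.**
Let `P` be a prime ideal of the ring of integers of `K` which contains the prime number `p`, and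
`m ≥ 1`.

1. There is a constant `C`, depending on `K`, `P`, `m`, `B`, `D` only, such that for all `e ≥ 1` and
   all `β` with `SmallClassDegree K P m B e D β`:
   `deg β ≤ C e log β` if `β > 1` is an algebraic integer whose other conjugates have modulus at most
   `1` (a Salem or Pisot number), and
   if `β` is a Perron number with `C e log β < deg β` then only finitely many powers of `β` are Parry
   numbers.
2. For all `e ≥ 1` and all real numbers `T` there are only finitely many Perron numbers `β ≤ T` with
   `SmallClassDegree K P m B e D β` such that infinitely many powers of `β` are Parry numbers. -/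
theorem result (K : Type) [Field K] [NumberField K] (p : ℕ) (hp : p.Prime) (P : Ideal (𝓞 K))
    (hP : P.IsPrime) (hpP : (p : 𝓞 K) ∈ P) (m B D : ℕ) (hm : 1 ≤ m) :
    (∃ C : ℝ, 0 < C ∧ ∀ e : ℕ, 0 < e → ∀ β : ℝ, SmallClassDegree K P m B e D (β : ℂ) →
      (1 < β → IsIntegral ℤ β →
        (∀ z : ℂ, aeval z (minpoly ℤ β) = 0 → z ≠ (β : ℂ) → ‖z‖ ≤ 1) →
        ((minpoly ℤ β).natDegree : ℝ) ≤ C * e * Real.log β) ∧
      (IsPerron β → C * e * Real.log β < (minpoly ℤ β).natDegree → (parryPowers β).Finite)) ∧
    (∀ e : ℕ, 0 < e → ∀ T : ℝ,
      {β : ℝ | IsPerron β ∧ β ≤ T ∧ SmallClassDegree K P m B e D (β : ℂ) ∧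
        ¬ (parryPowers β).Finite}.Finite) := by
  constructor
  · obtain ⟨C, hC, h⟩ := Pool.Agent.X186.PP.degree_le K p hp P hP hpP m B D hm
    refine ⟨C, hC, fun e he β hnear => ⟨fun h1 h2 h3 => h e he β h1 h2 h3 hnear, ?_⟩⟩
    intro hPer hlt
    by_contra hinf
    have hone := fun (z : ℂ) (hz : aeval z (minpoly ℤ β) = 0) (hne : z ≠ (β : ℂ)) =>
      Pool.Agent.W738.SAL.one_of_inf (β := β) hPer hinf hz hne
    have h1 := h e he β hPer.1 hPer.2.1 hone hnear
    linarith
  · intro e he T
    exact Pool.Agent.X186.PP.finite_near K p hp P hP hpP m B D hm e he T

end Pool.Agent.Results.MP_1f45fc_nt.BoundedDegreeSmallClasses
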