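import Mathlib
import Pool.Agent.X184.Leh.Q4

/-!
# Parry powers of Perron numbers and the traces of the powers

Let `1 < β < 2` be an algebraic integer of degree `n` with minimal polynomial `f`, let `tr_m` be
the sum of the `m`-th powers of the conjugates of `β`, `k ≥ 1`,

* `S = ∑_{m ≤ k} (tr_m - β ^ m + β ^ (-m)) ^ 2`,
* `B = (1/n) log⁺ (n ^ n / |disc f|)`; one has `0 ≤ B ≤ log n`.

(1) If the other conjugates of `β` have modulus at most `1` (`β` is a Salem or a Pisot number), then
`(1 - 1 / (n k)) S ≤ 2 n (B + log k + 1/3 + k ^ 2 log β)`.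

(2) If `β` is a Perron number and `(1 - 1 / (n k)) S > 2 n (B + log k + 1/3 + k ^ 2 log β)`, then
only finitely many powers of `β` are Parry numbers.

(3) If `β < 1.19` is a Perron number and `S ≥ 4 n (B + log k + 1/3 + 7 k ^ 2 / 40)`, then only
finitely many powers of `β` are Parry numbers. Lehmer's number is `1.17628...`.

So a Salem number of degree `n` below Lehmer's number has small traces: for `k = √B` the mean square
of the traces without the contribution of `β` itself is at most of order `n √B ≤ n √(log n)`.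

Method: for nonnegative weights `c_m` the positive definite kernel `-log |1 - t x conj y|` is applied
to the conjugates of `β`, `β ^ 2`, ..., `β ^ k`, reflected into the unit disc, with the weight `c_m`
on those of `β ^ m`. The resultants are integers and `disc f` divides the discriminants of the
powers; the first moment of the kernel gives the square of the weighted sum of the traces. The
weights are the positive and the negative parts of the traces themselves.
-/

set_option autoImplicit false

open Polynomial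

namespace Pool.Agent.Results.MP_1f45fc_nt.PowerTraces

/-- `β > 1` is an algebraic integer whose other conjugates have modulus less than `β`. -/
def IsPerron (β : ℝ) : Prop :=
  1 < β ∧ IsIntegral ℤ β ∧
    ∀ z : ℂ, aeval z (minpoly ℤ β) = 0 → z ≠ (β : ℂ) → ‖z‖ < β

/-- The set of the `k ≥ 1` such that `β ^ k` is a Parry number, that is, the orbit of `1` under
`x ↦ fract (β ^ k * x)` is finite. -/
def parryPowers (β : ℝ) : Set ℕ :=
  {k : ℕ | 1 ≤ k ∧ Set.Finite (Set.range (fun j : ℕ =>
    (fun x : ℝ => Int.fract (β ^ k * x))^[j] (1 : ℝ)))}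

/-- The trace of `β ^ m`: the sum of the `m`-th powers of the complex zeros of the minimal
polynomial of `β`. -/
noncomputable def powerTrace (β : ℝ) (m : ℕ) : ℝ :=
  ((((minpoly ℤ β).map (Int.castRingHom ℂ)).roots.map fun z => z ^ m).sum).re

/-- The sum `S` of the squares of the traces of `β ^ m`, `1 ≤ m ≤ k`, with `β ^ m` replaced by
`- β ^ (-m)`. -/
noncomputable def squareSum (β : ℝ) (k : ℕ) : ℝ :=
  ∑ m ∈ Finset.Icc 1 k, (powerTrace β m - β ^ m + (β⁻¹) ^ m) ^ 2

/-- **Parry powers of Perron numbers and the traces of the powers.** -/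
theorem result (β : ℝ) (hβ1 : 1 < β) (hβ2 : β < 2) (hβ : IsIntegral ℤ β)
    (n : ℕ) (hn : n = (minpoly ℤ β).natDegree)
    (B : ℝ) (hB : B = Real.posLog ((n : ℝ) ^ n / |((minpoly ℤ β).discr : ℝ)|) / n)
    (k : ℕ) (hk : 1 ≤ k) (S : ℝ) (hS : S = squareSum β k) :
    ((∀ z : ℂ, aeval z (minpoly ℤ β) = 0 → z ≠ (β : ℂ) → ‖z‖ ≤ 1) →
      (1 - 1 / (n * k : ℝ)) * S ≤ 2 * n * (B + Real.log k + 1 / 3 + k ^ 2 * Real.log β)) ∧
    (IsPerron β →
      2 * n * (B + Real.log k + 1 / 3 + k ^ 2 * Real.log β) < (1 - 1 / (n * k : ℝ)) * S →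
      (parryPowers β).Finite) ∧
    (IsPerron β → β < 119 / 100 → 4 * n * (B + Real.log k + 1 / 3 + 7 / 40 * k ^ 2) ≤ S →
      (parryPowers β).Finite) := by
  have part1' : (∀ z : ℂ, aeval z (minpoly ℤ β) = 0 → z ≠ (β : ℂ) → ‖z‖ ≤ 1) →
      (1 - 1 / (n * k : ℝ)) * S ≤ 2 * n * (B + Real.log k + 1 / 3 + k ^ 2 * Real.log β) ∧
        2 ≤ n := by
    intro hone
    have h := Pool.Agent.X184.Leh.salem_traces hβ1 hβ hβ2 hone hk
    rw [hS, hB, hn]
    exact h
  have part1 := fun hone => (part1' hone).1
  have part2 : IsPerron β →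
      2 * n * (B + Real.log k + 1 / 3 + k ^ 2 * Real.log β) < (1 - 1 / (n * k : ℝ)) * S →
      (parryPowers β).Finite := by
    intro hP h
    by_contra hinf
    have hone := fun z hz hne =>
      Pool.Agent.H389R3.PR.conj_le_one hβ1 hβ hP.2.2 hinf (z := z) hz hne
    exact absurd (part1 hone) (not_le.mpr h)
  refine ⟨part1, part2, ?_⟩
  intro hP hlt h
  by_contra hinf
  have hone := fun z hz hne =>
    Pool.Agent.H389R3.PR.conj_le_one hβ1 hβ hP.2.2 hinf (z := z) hz hne
  obtain ⟨h1, hn2⟩ := part1' hone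
  have hn2' : (2:ℝ) ≤ n := by exact_mod_cast hn2
  have hk1 : (1:ℝ) ≤ k := by exact_mod_cast hk
  have hnk : (2:ℝ) ≤ n * k := by nlinarith
  have hS0 : 0 ≤ S := by
    rw [hS]
    exact Finset.sum_nonneg fun m _ => sq_nonneg _
  have h2 : 1 / (n * k : ℝ) ≤ 1 / 2 := one_div_le_one_div_of_le (by norm_num) hnk
  have hlog : Real.log β < 7 / 40 := by
    have h3 : (119 / 100 : ℝ) ≤ Real.exp (7 / 40) := by
      have := Real.quadratic_le_exp_of_nonneg (show (0:ℝ) ≤ 7 / 40 by norm_num)
      norm_num at this ⊢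
      linarith
    rw [Real.log_lt_iff_lt_exp (by linarith)]
    linarith
  have h4 : (k:ℝ) ^ 2 * Real.log β < 7 / 40 * k ^ 2 := by
    have : (0:ℝ) < (k:ℝ) ^ 2 := by positivity
    nlinarith
  have h5 : 1 / 2 * S ≤ (1 - 1 / (n * k : ℝ)) * S := mul_le_mul_of_nonneg_right (by linarith) hS0
  nlinarith

end Pool.Agent.Results.MP_1f45fc_nt.PowerTraces
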